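import Pool.Agent.W840.OSI.Final
import Pool.Agent.W840.OSI.Iso

/-!
# Constant sparsity is not enough for oblivious subspace injection by SparseStack matrices

Restrict the SparseStack to a coordinate subspace of dimension `r`. If `ζ` is small, then for
large `r` some coordinate `i` shares each of its `ζ` bins with at least `M = K ζ` other
coordinates; the vector `e_i - ∑_j (1/m_j) ∑_{c in the bin of i in block j} ± e_c` is then almost
annihilated by `Ωᵀ`: the expectation over the signs of the squared norm of its image is at most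
`ζ / M = 1 / K`.
-/

set_option autoImplicit false

namespace Pool.Agent.Results.MP_59a663_pr.ConstantSparsityFails

open Filter Pool.Agent.W840.OSI

/-- Let `C`, `α > 0` and `δ < 1` be given. There are `c > 0` and `r₀` such that every SparseStack
with sparsity `ζ` and embedding dimension `k = b ζ ≤ C r`, `r ≥ r₀`, that is an oblivious subspace
injection for `r`-dimensional subspaces of `ℝ^n` (`n ≥ r` arbitrary) with parameter `α` and failure
probability `δ`, has sparsity `ζ ≥ c √(log r / log log r)`. -/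
theorem result : ∀ C α δ : ℝ, 0 < α → δ < 1 → ∃ c : ℝ, 0 < c ∧ ∃ r₀ : ℕ,
    ∀ n r ζ b : ℕ, r₀ ≤ r → r ≤ n → 1 ≤ ζ → 1 ≤ b → ((b * ζ : ℕ) : ℝ) ≤ C * r →
      IsOSI n b ζ r α δ → c * Real.sqrt (Real.log r / Real.log (Real.log r)) ≤ ζ :=
  fun C α δ hα hδ => main C α δ hα hδ

/-- `log r / log log r` is unbounded. -/
theorem unbounded (c C : ℝ) (hc : 0 < c) (r₀ : ℕ) : ∃ r : ℕ, r₀ ≤ r ∧ 1 ≤ r ∧
    C < c * Real.sqrt (Real.log r / Real.log (Real.log r)) := by
  have h1 : Tendsto (fun x : ℝ => x / Real.log x) atTop atTop := by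
    have h2 : Tendsto (fun x : ℝ => Real.log x / x) atTop (nhdsWithin 0 (Set.Ioi 0)) := by
      rw [tendsto_nhdsWithin_iff]
      refine ⟨?_, ?_⟩
      · have := Real.isLittleO_log_id_atTop.tendsto_div_nhds_zero
        exact this
      · filter_upwards [eventually_gt_atTop 1] with x hx
        exact div_pos (Real.log_pos hx) (by linarith)
    have h3 := tendsto_inv_nhdsGT_zero.comp h2
    refine h3.congr fun x => ?_
    simp only [Function.comp_apply, inv_div]
  have h4 : Tendsto (fun r : ℕ => Real.log (r : ℝ)) atTop atTop :=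
    Real.tendsto_log_atTop.comp tendsto_natCast_atTop_atTop
  have h5 : Tendsto (fun r : ℕ => c * Real.sqrt (Real.log r / Real.log (Real.log r))) atTop
      atTop := by
    refine Tendsto.const_mul_atTop hc ?_
    exact Real.tendsto_sqrt_atTop.comp (h1.comp h4)
  have h6 := (h5.eventually_gt_atTop C).and (eventually_ge_atTop (max r₀ 1))
  obtain ⟨r, h7, h8⟩ := h6.exists
  exact ⟨r, (le_max_left _ _).trans h8, (le_max_right _ _).trans h8, h7⟩

/-- `n / log n` is unbounded. -/
theorem unbounded' (c : ℝ) (hc : 0 < c) (r : ℕ) : ∃ n : ℕ, r ≤ n ∧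
    (r : ℝ) ≤ c * n / Real.log n := by
  have h1 : Tendsto (fun x : ℝ => x / Real.log x) atTop atTop := by
    have h2 : Tendsto (fun x : ℝ => Real.log x / x) atTop (nhdsWithin 0 (Set.Ioi 0)) := by
      rw [tendsto_nhdsWithin_iff]
      refine ⟨?_, ?_⟩
      · have := Real.isLittleO_log_id_atTop.tendsto_div_nhds_zero
        exact this
      · filter_upwards [eventually_gt_atTop 1] with x hx
        exact div_pos (Real.log_pos hx) (by linarith)
    have h3 := tendsto_inv_nhdsGT_zero.comp h2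
    refine h3.congr fun x => ?_
    simp only [Function.comp_apply, inv_div]
  have h5 : Tendsto (fun n : ℕ => c * ((n : ℝ) / Real.log n)) atTop atTop :=
    Tendsto.const_mul_atTop hc (h1.comp tendsto_natCast_atTop_atTop)
  have h6 := (h5.eventually_ge_atTop (r : ℝ)).and (eventually_ge_atTop r)
  obtain ⟨n, h7, h8⟩ := h6.exists
  refine ⟨n, h8, ?_⟩
  rw [mul_div_assoc]
  exact h7

/-- The negative answer to Q1. -/
theorem not_Q1 : ¬ ∃ c C₁ C₂ α₀ : ℝ, 0 < c ∧ 0 < C₁ ∧ 0 < C₂ ∧ 0 < α₀ ∧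
    ∀ n r : ℕ, 1 ≤ r → r ≤ n → (r : ℝ) ≤ c * n / Real.log n →
      ∃ ζ b : ℕ, 1 ≤ ζ ∧ 1 ≤ b ∧ (ζ : ℝ) ≤ C₁ ∧ ((b * ζ : ℕ) : ℝ) ≤ C₂ * r ∧
        IsOSI n b ζ r α₀ (1 / 100) := by
  rintro ⟨c, C₁, C₂, α₀, hc, -, -, hα₀, h⟩
  obtain ⟨c', hc', r₀, h'⟩ := result C₂ α₀ (1 / 100) hα₀ (by norm_num)
  obtain ⟨r, hr, hr1, hC⟩ := unbounded c' C₁ hc' r₀
  obtain ⟨n, hn, hn'⟩ := unbounded' c hc r
  obtain ⟨ζ, b, h1, h2, h3, h4, h5⟩ := h n r hr1 hn hn'
  have h6 := h' n r ζ b hr hn h1 h2 h4 h5
  linarith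

/-- The negative answer to Q2: sparsity `4` and embedding dimension `2 r`. For no `c, α₀ > 0` is
the SparseStack with `ζ = 4` and `b = r / 2` an oblivious subspace injection with parameter `α₀`
for all sufficiently large even `r` in the regime `r ≤ c n / log n`. -/
theorem not_Q2 : ¬ ∃ c α₀ : ℝ, 0 < c ∧ 0 < α₀ ∧ ∃ R : ℕ, ∀ n b : ℕ, R ≤ 2 * b → 2 * b ≤ n →
    ((2 * b : ℕ) : ℝ) ≤ c * n / Real.log n → IsOSI n b 4 (2 * b) α₀ (1 / 100) := by
  rintro ⟨c, α₀, hc, hα₀, R, h⟩
  obtain ⟨c', hc', r₀, h'⟩ := result 2 α₀ (1 / 100) hα₀ (by norm_num)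
  -- a large even `r`
  have h1 : Tendsto (fun x : ℝ => x / Real.log x) atTop atTop := by
    have h2 : Tendsto (fun x : ℝ => Real.log x / x) atTop (nhdsWithin 0 (Set.Ioi 0)) := by
      rw [tendsto_nhdsWithin_iff]
      refine ⟨?_, ?_⟩
      · have := Real.isLittleO_log_id_atTop.tendsto_div_nhds_zero
        exact this
      · filter_upwards [eventually_gt_atTop 1] with x hx
        exact div_pos (Real.log_pos hx) (by linarith)
    have h3 := tendsto_inv_nhdsGT_zero.comp h2
    refine h3.congr fun x => ?_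
    simp only [Function.comp_apply, inv_div]
  have hev : Tendsto (fun b : ℕ => ((2 * b : ℕ) : ℝ)) atTop atTop := by
    refine tendsto_natCast_atTop_atTop.comp ?_
    exact tendsto_id.const_mul_atTop' (by norm_num)
  have h5 : Tendsto (fun b : ℕ => c' * Real.sqrt (Real.log ((2 * b : ℕ) : ℝ) /
      Real.log (Real.log ((2 * b : ℕ) : ℝ)))) atTop atTop := by
    refine Tendsto.const_mul_atTop hc' ?_
    exact Real.tendsto_sqrt_atTop.comp (h1.comp (Real.tendsto_log_atTop.comp hev))
  obtain ⟨b, hb1, hb2⟩ := ((h5.eventually_gt_atTop 4).and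
    (eventually_ge_atTop (max (max r₀ R) 1))).exists
  have hb3 : r₀ ≤ b := (le_max_left _ _).trans ((le_max_left _ _).trans hb2)
  have hb4 : R ≤ b := (le_max_right _ _).trans ((le_max_left _ _).trans hb2)
  have hb5 : 1 ≤ b := (le_max_right _ _).trans hb2
  obtain ⟨n, hn, hn'⟩ := unbounded' c hc (2 * b)
  have h6 := h n b (by omega) hn hn'
  have h7 := h' n (2 * b) 4 b (by omega) hn (by norm_num) hb5 (by push_cast; linarith) h6
  push_cast at h7 hb1
  linarith

end Pool.Agent.Results.MP_59a663_pr.ConstantSparsityFails
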